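import Mathlib
import Pool.Agent.Q266.CycIdeal

set_option autoImplicit false

/-!
The largest pre-period of the cyclic sum map on `(ℤ/m)^n`.
-/

namespace Pool.Agent.Results.MP_6a5936_nt.MaxPrePeriod

open Polynomial Finset

/-- The map `T (a_0, ..., a_{n-1}) = (a_0 + a_1, a_1 + a_2, ..., a_{n-1} + a_0)` on `(ℤ/m)^n`, with
the indices read modulo `n`. -/
def T (m n : ℕ) (a : ZMod n → ZMod m) : ZMod n → ZMod m := fun i => a i + a (i + 1)

/-- The cycle length `P(a)`. -/
noncomputable def cycleLength (m n : ℕ) (a : ZMod n → ZMod m) : ℕ :=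
  sInf {P | 0 < P ∧ ∃ N, 0 < N ∧ ∀ k ≥ N, (T m n)^[k + P] a = (T m n)^[k] a}

/-- The pre-period `N(a)`. -/
noncomputable def prePeriod (m n : ℕ) (a : ZMod n → ZMod m) : ℕ :=
  sInf {N | 0 < N ∧ ∀ k ≥ N, (T m n)^[k + cycleLength m n a] a = (T m n)^[k] a}

/-- The value of `N_max(p^k, n)` for a prime `p`: it is `p^t + (k - 1) (p^t - p^(t-1))`, where `p^t`
is the largest power of `p` dividing `n`, if `n` is even and `p ∣ n`; it is `k` if `n` is odd and
`p = 2`; and it is `1` in all other cases. -/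
def value (p k n : ℕ) : ℕ :=
  if Even n then
    if p ∣ n then
      p ^ padicValNat p n + (k - 1) * (p ^ padicValNat p n - p ^ (padicValNat p n - 1))
    else 1
  else if p = 2 then k else 1

section

variable {m n : ℕ}

theorem exists_pair [NeZero m] [NeZero n] (a : ZMod n → ZMod m) :
    ∃ i P, 0 < P ∧ (T m n)^[i + P] a = (T m n)^[i] a := by
  obtain ⟨i, j, hij, h⟩ := Finite.exists_ne_map_eq_of_infinite (fun i : ℕ => (T m n)^[i] a)
  rcases Nat.lt_or_gt_of_ne hij with h1 | h1
  · exact ⟨i, j - i, by omega, by rw [Nat.add_sub_cancel' h1.le]; exact h.symm⟩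
  · exact ⟨j, i - j, by omega, by rw [Nat.add_sub_cancel' h1.le]; exact h⟩

theorem eventually_of_eq {a : ZMod n → ZMod m} {i P : ℕ}
    (h : (T m n)^[i + P] a = (T m n)^[i] a) : ∀ k ≥ i, (T m n)^[k + P] a = (T m n)^[k] a := by
  intro k hk
  obtain ⟨l, rfl⟩ := Nat.exists_eq_add_of_le hk
  have e1 : i + l + P = l + (i + P) := by ring
  have e2 : i + l = l + i := by ring
  rw [e1, e2, Function.iterate_add_apply, h, ← Function.iterate_add_apply]

theorem cycleLength_spec [NeZero m] [NeZero n] (a : ZMod n → ZMod m) :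
    0 < cycleLength m n a ∧ ∃ N, 0 < N ∧ ∀ k ≥ N, (T m n)^[k + cycleLength m n a] a = (T m n)^[k] a := by
  have hne : {P | 0 < P ∧ ∃ N, 0 < N ∧ ∀ k ≥ N, (T m n)^[k + P] a = (T m n)^[k] a}.Nonempty := by
    obtain ⟨i, P, hP, h⟩ := exists_pair a
    exact ⟨P, hP, i + 1, by omega, fun k hk => eventually_of_eq h k (by omega)⟩
  exact Nat.sInf_mem hne

theorem prePeriod_spec [NeZero m] [NeZero n] (a : ZMod n → ZMod m) :
    0 < prePeriod m n a ∧
      ∀ k ≥ prePeriod m n a, (T m n)^[k + cycleLength m n a] a = (T m n)^[k] a := by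
  have hne : {N | 0 < N ∧ ∀ k ≥ N, (T m n)^[k + cycleLength m n a] a = (T m n)^[k] a}.Nonempty :=
    (cycleLength_spec a).2
  exact Nat.sInf_mem hne

/-- `N(a) ≤ N` if and only if `T^N a` lies on a cycle -/
theorem prePeriod_le_iff [NeZero m] [NeZero n] (a : ZMod n → ZMod m) {N : ℕ} (hN : 1 ≤ N) :
    prePeriod m n a ≤ N ↔ ∃ P, 0 < P ∧ (T m n)^[N + P] a = (T m n)^[N] a := by
  constructor
  · intro h
    exact ⟨cycleLength m n a, (cycleLength_spec a).1, (prePeriod_spec a).2 N h⟩
  · rintro ⟨Q, hQ, h⟩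
    apply Nat.sInf_le
    refine ⟨hN, ?_⟩
    obtain ⟨_, N₀, _, h0⟩ := cycleLength_spec a
    intro k hk
    have h1 : ∀ l, ∀ k ≥ N, (T m n)^[k + l * Q] a = (T m n)^[k] a := by
      intro l
      induction l with
      | zero => intro k _; rw [zero_mul, add_zero]
      | succ l ih =>
        intro k hk
        have e : k + (l + 1) * Q = (k + l * Q) + Q := by ring
        rw [e, eventually_of_eq h _ (by omega), ih k hk]
    have hl : N₀ ≤ k + N₀ * Q := by nlinarith
    have h2 := h0 _ hl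
    have e : k + N₀ * Q + cycleLength m n a = (k + cycleLength m n a) + N₀ * Q := by ring
    rw [e, h1 N₀ _ (by omega), h1 N₀ k hk] at h2
    exact h2

/-- the shift -/
noncomputable def S (m n : ℕ) : Module.End ℤ (ZMod n → ZMod m) :=
  LinearMap.funLeft ℤ (ZMod m) (fun i => i + 1)

theorem S_pow_apply (j : ℕ) (a : ZMod n → ZMod m) (i : ZMod n) : ((S m n) ^ j) a i = a (i + j) := by
  induction j generalizing a i with
  | zero => simp
  | succ j ih =>
    rw [pow_succ, Module.End.mul_apply, ih]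
    unfold S
    rw [LinearMap.funLeft_apply]
    congr 1
    push_cast
    ring

theorem T_iterate (k : ℕ) (a : ZMod n → ZMod m) :
    (T m n)^[k] a = (aeval (S m n) ((X + 1 : ℤ[X]) ^ k)) a := by
  rw [map_pow, map_add, aeval_X, map_one]
  induction k generalizing a with
  | zero => simp
  | succ k ih =>
    rw [Function.iterate_succ_apply, ih, pow_succ, Module.End.mul_apply]
    congr 1
    ext i
    simp [T, S, LinearMap.funLeft_apply, add_comm]

theorem aeval_zero_of_mem {f : ℤ[X]} (hf : f ∈ Q266.CycWeight.K (m : ℤ) (X ^ n - 1)) :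
    aeval (S m n) f = 0 := by
  obtain ⟨a, b, rfl⟩ := Q266.CycWeight.mem_K.1 hf
  have h1 : aeval (S m n) (C (m : ℤ)) = 0 := by
    ext x i
    simp
  have h2 : aeval (S m n) (X ^ n - 1 : ℤ[X]) = 0 := by
    rw [map_sub, map_pow, aeval_X, map_one, sub_eq_zero]
    apply LinearMap.ext
    intro a
    ext i
    rw [S_pow_apply]
    simp
  rw [map_add, map_mul, map_mul, h1, h2, zero_mul, zero_mul, add_zero]

theorem mem_of_aeval_single [NeZero n] {f : ℤ[X]}
    (hf : aeval (S m n) f (Pi.single 0 1) = 0) :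
    f ∈ Q266.CycWeight.K (m : ℤ) (X ^ n - 1) := by
  have hn : n ≠ 0 := NeZero.ne n
  have hmon : (X ^ n - 1 : ℤ[X]).Monic := by
    have := monic_X_pow_sub_C (1 : ℤ) hn
    rwa [C_1] at this
  have hdeg : (X ^ n - 1 : ℤ[X]).natDegree = n := by
    have := natDegree_X_pow_sub_C (n := n) (r := (1 : ℤ))
    rwa [C_1] at this
  rw [Q266.CycWeight.mem_K_iff_dvd hmon]
  intro i
  have hr : aeval (S m n) (f %ₘ (X ^ n - 1)) (Pi.single 0 1) = 0 := by
    have h1 : f = f %ₘ (X ^ n - 1) + (X ^ n - 1) * (f /ₘ (X ^ n - 1)) :=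
      (modByMonic_add_div f _).symm
    have h2 : aeval (S m n) ((X ^ n - 1) * (f /ₘ (X ^ n - 1))) = 0 :=
      aeval_zero_of_mem (Ideal.mul_mem_right _ _ (Q266.CycWeight.K_f _ _))
    have h3 : aeval (S m n) f = aeval (S m n) (f %ₘ (X ^ n - 1)) := by
      conv_lhs => rw [h1]
      rw [map_add, h2, add_zero]
    rw [← h3]
    exact hf
  by_cases hi : i < n
  · have hlt : (f %ₘ (X ^ n - 1)).natDegree < n := by
      have := natDegree_modByMonic_lt f hmon (by
        intro h
        rw [h, natDegree_one] at hdeg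
        exact hn hdeg.symm)
      rwa [hdeg] at this
    have h1 := congrFun hr (-(i : ZMod n))
    rw [aeval_eq_sum_range' hlt] at h1
    simp only [LinearMap.sum_apply, LinearMap.smul_apply, Finset.sum_apply, Pi.smul_apply,
      S_pow_apply, Pi.zero_apply] at h1
    rw [Finset.sum_eq_single i] at h1
    · rw [neg_add_cancel, Pi.single_eq_same] at h1
      rw [zsmul_one] at h1
      exact (ZMod.intCast_zmod_eq_zero_iff_dvd _ _).1 h1
    · intro j hj hji
      rw [Pi.single_eq_of_ne, smul_zero]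
      intro h2
      apply hji
      have h3 : ((j : ℕ) : ZMod n) = (i : ℕ) := by
        rw [← sub_eq_zero]
        rw [← h2]
        ring
      rw [ZMod.natCast_eq_natCast_iff'] at h3
      rwa [Nat.mod_eq_of_lt (mem_range.1 hj), Nat.mod_eq_of_lt hi] at h3
    · intro h2
      exact absurd (mem_range.2 hi) h2
  · rw [coeff_eq_zero_of_natDegree_lt]
    · exact dvd_zero _
    · have := natDegree_modByMonic_lt f hmon (by
        intro h
        rw [h, natDegree_one] at hdeg
        exact hn hdeg.symm)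
      rw [hdeg] at this
      omega

theorem all_iff [NeZero m] [NeZero n] {N : ℕ} (hN : 1 ≤ N) :
    (∀ a, prePeriod m n a ≤ N) ↔ ∀ p ∈ m.primeFactors, value p (m.factorization p) n ≤ N := by
  have hfin : ∃ i P : ℕ, 0 < P ∧
      ((X + 1) ^ i * ((X + 1) ^ P - 1) : ℤ[X]) ∈ Q266.CycWeight.K (m : ℤ) (X ^ n - 1) := by
    obtain ⟨i, P, hP, h⟩ := exists_pair (m := m) (n := n) (Pi.single 0 1)
    refine ⟨i, P, hP, mem_of_aeval_single ?_⟩
    rw [T_iterate, T_iterate, ← sub_eq_zero, ← LinearMap.sub_apply, ← map_sub] at h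
    rw [← h]
    congr 2
    ring
  have h1 := Q266.CycWeight.general (N := N) (Nat.pos_of_ne_zero (NeZero.ne m))
    (Nat.pos_of_ne_zero (NeZero.ne n)) hN hfin
  have h2 : (∀ a, prePeriod m n a ≤ N) ↔ ∃ P : ℕ, 0 < P ∧
      ((X + 1) ^ N * ((X + 1) ^ P - 1) : ℤ[X]) ∈ Q266.CycWeight.K (m : ℤ) (X ^ n - 1) := by
    constructor
    · intro h
      obtain ⟨P, hP, h3⟩ := (prePeriod_le_iff _ hN).1 (h (Pi.single 0 1))
      refine ⟨P, hP, mem_of_aeval_single ?_⟩
      rw [T_iterate, T_iterate, ← sub_eq_zero, ← LinearMap.sub_apply, ← map_sub] at h3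
      rw [← h3]
      congr 2
      ring
    · rintro ⟨P, hP, h3⟩ a
      rw [prePeriod_le_iff _ hN]
      refine ⟨P, hP, ?_⟩
      rw [T_iterate, T_iterate, ← sub_eq_zero, ← LinearMap.sub_apply, ← map_sub]
      have e : (X + 1 : ℤ[X]) ^ (N + P) - (X + 1) ^ N = (X + 1) ^ N * ((X + 1) ^ P - 1) := by ring
      rw [e, aeval_zero_of_mem h3, LinearMap.zero_apply]
  rw [h2, h1]
  rfl

end

/-- **The largest pre-period.**  For all `m, n ≥ 1` the largest pre-period `N_max(m, n)` of the
sequences `(T^k a)`, `a ∈ (ℤ/m)^n`, is the maximum of `1` and of the numbers `value p k n`, where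
`p` runs through the primes dividing `m` and `p^k` is the largest power of `p` dividing `m`. -/
theorem result (m n : ℕ) (hm : 1 ≤ m) (hn : 1 ≤ n) :
    IsGreatest (Set.range (prePeriod m n))
      (max 1 (m.primeFactors.sup fun p => value p (m.factorization p) n)) := by
  have : NeZero m := ⟨by omega⟩
  have : NeZero n := ⟨by omega⟩
  set V := max 1 (m.primeFactors.sup fun p => value p (m.factorization p) n) with hV
  have hV1 : 1 ≤ V := le_max_left _ _
  have hall : ∀ a, prePeriod m n a ≤ V := by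
    rw [all_iff hV1]
    intro p hp
    exact (Finset.le_sup (f := fun p => value p (m.factorization p) n) hp).trans (le_max_right _ _)
  refine ⟨?_, ?_⟩
  · by_contra hcon
    have hlt : ∀ a, prePeriod m n a < V := by
      intro a
      refine lt_of_le_of_ne (hall a) fun h => hcon ⟨a, h⟩
    have h1 : 1 < V := lt_of_le_of_lt (prePeriod_spec (m := m) (n := n) 0).1 (hlt 0)
    have h2 : ∀ a, prePeriod m n a ≤ V - 1 := fun a => by have := hlt a; omega
    rw [all_iff (by omega)] at h2
    have h3 : V ≤ V - 1 := by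
      conv_lhs => rw [hV]
      exact max_le (by omega) (Finset.sup_le h2)
    omega
  · rintro _ ⟨a, rfl⟩
    exact hall a

end Pool.Agent.Results.MP_6a5936_nt.MaxPrePeriod
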